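import Mathlib
import Pool.Agent.Helper65.SL.Base

/-!
# Project SL, module CNF: scalar curvature of a conformal metric
-/

set_option autoImplicit false
set_option maxSynthPendingDepth 3
set_option linter.unusedSectionVars false
set_option linter.deprecated false
set_option linter.unusedVariables false

namespace Pool.Agent.Helper30.SL

open Filter Topology
open scoped ContDiff Manifold
open Pool.Agent.Helper65.SL Pool.Agent.Helper23.Ric

section coordinates

variable {E : Type*} [NormedAddCommGroup E] [NormedSpace ℝ E] [FiniteDimensional ℝ E]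
variable {G : E → E →L[ℝ] E →L[ℝ] ℝ} {ψ : E → E} {z : E}

theorem cnf {φ : E → ℝ} (h : GoodAt G z) (hφ : ContDiffAt ℝ 2 φ z) {m : ℕ}
    (hm : m = Module.finrank ℝ E) (e : Fin m → E) (he : IsOrtho (G z) e) :
    ∑ i, ricci (conf φ G) z (Real.exp (-φ z) • e i) (Real.exp (-φ z) • e i) =
      Real.exp (-2 * φ z) * pf m φ G z e := by
  have htr : LinearMap.trace ℝ E (dgrad φ G z) = ∑ i, hess φ G z (e i) (e i) := by
    rw [trace_ortho he hm]
    exact Finset.sum_congr rfl fun i _ => dgrad_spec h hφ _ _
  have hgr : fderiv ℝ φ z (grad φ G z) = ∑ i, fderiv ℝ φ z (e i) ^ 2 := by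
    have h1 : LinearMap.trace ℝ E ((fderiv ℝ φ z : E →ₗ[ℝ] ℝ).smulRight (grad φ G z)) =
        fderiv ℝ φ z (grad φ G z) := by rw [LinearMap.trace_smulRight]; rfl
    rw [← h1, trace_ortho he hm]
    refine Finset.sum_congr rfl fun i _ => ?_
    simp only [LinearMap.smulRight_apply, map_smul, ContinuousLinearMap.smul_apply, smul_eq_mul,
      grad_spec h, ContinuousLinearMap.coe_coe]
    ring
  have hc : ∀ i, ricci (conf φ G) z (e i) (e i) = ricci G z (e i) (e i)
      - ((m : ℝ) - 2) * (hess φ G z (e i) (e i) - fderiv ℝ φ z (e i) ^ 2)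
      - (∑ i, hess φ G z (e i) (e i)
        + ((m : ℝ) - 2) * ∑ i, fderiv ℝ φ z (e i) ^ 2) := by
    intro i
    rw [ricci_conf h hφ, htr, hgr, ← hm, he i i, if_pos rfl, mul_one]
  have hexp : Real.exp (-φ z) ^ 2 = Real.exp (-2 * φ z) := by
    rw [← Real.exp_nat_mul]
    congr 1
    push_cast
    ring
  simp only [ricci_smul (conf_good h hφ), ← Finset.mul_sum, hexp]
  congr 1
  unfold pf
  simp only [hc, Finset.sum_sub_distrib, Finset.sum_add_distrib, Finset.sum_const,
    Finset.card_univ, Fintype.card_fin, ← Finset.mul_sum, nsmul_eq_mul]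
  ring

end coordinates

end Pool.Agent.Helper30.SL
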